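import Pool.Agent.Helper58.OL.Def

/-!
# Lines through a general point are not pairwise orthogonal: statements (swarm OL)
-/

set_option autoImplicit false
set_option linter.unusedSectionVars false

open Polynomial Finset DirectSum

namespace Pool.Agent.Helper58.OL.Spec

open Pool.Agent.Helper766_CF Pool.Agent.Helper766_CG Pool.Agent.Helper766_CH
open Pool.Agent.Helper58.CS Pool.Agent.Helper58.OP Pool.Agent.Helper58.SH Pool.Agent.Helper58.BG
open Pool.Agent.Helper58.LC Pool.Agent.Helper58.NS Pool.Agent.Helper58.DP Pool.Agent.Helper58.OL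

variable {R : Type} [CommRing R] [Algebra ℂ R] {𝒜 : ℕ → Submodule ℂ R} [GradedAlgebra 𝒜]
  {br : R →ₗ[ℂ] R →ₗ[ℂ] R} {k : Type} [Field k] [Algebra ℂ k] [IsAlgClosed k]

/-- GA (field theory, 100 lines). If `c` is transcendental over `K₀`: a transcendence basis `B ∋ c`, the
automorphism `c ↦ c + 1` of `K₀(B)` extends to the algebraic closure `K`. If `c` is algebraic, take
another root `c'` of its minimal polynomial (char 0) and `K₀(c) ≅ K₀(c')`; a transcendence basis of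
`K` over `K₀` is one over `K₀(c)` and `K₀(c')` (`IsAlgClosed.equivOfTranscendenceBasis`). -/
theorem exists_aut {K₀ K : Type} [Field K₀] [Field K] [CharZero K₀] [Algebra K₀ K] [IsAlgClosed K]
    {c : K} (hc : c ∉ Set.range (algebraMap K₀ K)) : ∃ σ : K ≃ₐ[K₀] K, σ c ≠ c := sorry

/-- GD (70 lines). Reduced echelon basis `u_j` of `U` (a finite `J ⊆ I` with `U ≃ K^J`): `σ u_j - u_j`
lies in `U` and vanishes on `J`. -/
theorem descent {K₀ K : Type} [Field K₀] [Field K] [Algebra K₀ K]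
    (hfix : ∀ c : K, (∀ σ : K ≃ₐ[K₀] K, σ c = c) → c ∈ Set.range (algebraMap K₀ K)) {I : Type}
    (U : Submodule K (I → K)) [Module.Finite K U]
    (hU : ∀ σ : K ≃ₐ[K₀] K, ∀ u ∈ U, (fun i => σ (u i)) ∈ U) :
    U ≤ Submodule.span K {u | u ∈ U ∧ ∃ v : I → K₀, u = fun i => algebraMap K₀ K (v i)} := sorry

/-- PB (120 lines). Deform `f₁` by `DP.deform` (Helper27/DP/D.lean; `V = X * s`, `P` constant):
`F = f₁ + ε t s + …` with `F(0)` constant; over `Kc k` it is a curve (`curve_toK`, Helper9/DT/CU.lean,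
`Dfm`), as well as `f₂` (`map_curve`, Helper54/DT/MC.lean); apply `hall` to them and to the list `L`,
take the coefficient of `ε`. -/
theorem orth1 (C : Core 𝒜 br) (hall : AllOrth 𝒜 br) {f₁ f₂ : R →ₐ[ℂ] k[X]}
    (h₁ : IsCurve 𝒜 k 1 f₁) (h₂ : IsCurve 𝒜 k 1 f₂) (hgg : GGA 𝒜 f₁)
    (h0 : ∀ r, (f₁ r).coeff 0 = (f₂ r).coeff 0)
    (hinj : Function.Injective fun r => (f₁ r).coeff 0) {s : R →ₗ[ℂ] k[X]} (hs : Sec1 𝒜 f₁ s) :
    Perp br (fun r => (f₁ r).coeff 0) (fun r => (s r).coeff 0) (fun r => (f₂ r).coeff 1) := sorry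

/-- IS (60 lines). `om s L'` for a polynomial list `L'` of `s'` (`exists_hv`) is zero: the reversed
sections are divisible by `X`, so the form in the chart `g` is divisible by `X ^ 2` but has degree
`≤ 1` (`om_rev`, DT part O2 / the form of DP part A2); evaluate at `lam`, `om_zero` (DT part O1)
for the independence of the list. -/
theorem iso1 (C : Core 𝒜 br) {f g : R →ₐ[ℂ] k[X]} (hf : IsCurve 𝒜 k 1 f) (hg : IsCurve 𝒜 k 1 g)
    (hrev : ∀ d, ∀ a ∈ 𝒜 d, ∀ i j, i + j = d → (f a).coeff i = (g a).coeff j)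
    {s s' : R →ₗ[ℂ] k[X]} (hs : Sec1 𝒜 f s) (hs' : Sec1 𝒜 f s') (lam : k) :
    Perp br (fun r => (f r).eval lam) (fun r => (s r).eval lam) (fun r => (s' r).eval lam) := sorry

/-- PA (120 lines, from IS and DP A2 `rr`, DP A1 or DT BA). `E` = derivations at `x = f(0)`, dimension
`2 n` (`x` injective), `S'` → `E` injective with isotropic image of dimension `≥ n`
(`finrank HS = 3 n`, `HS / X S' ≃ E`), the form is nondegenerate, so `S'^⊥ = S'`. -/
theorem perp_span [IsDomain R] (C : Core 𝒜 br) {n : ℕ} (hdim : ringKrullDim R = (2 * n : ℕ))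
    {f g : R →ₐ[ℂ] k[X]} (h : FL 𝒜 k f g) (hinj : Function.Injective fun r => (f r).coeff 0)
    {δ : R →ₗ[ℂ] k} (hδ : ∀ a b, δ (a * b) = (f a).coeff 0 * δ b + (f b).coeff 0 * δ a)
    (hperp : ∀ s, Sec1 𝒜 f s →
      Perp br (fun r => (f r).coeff 0) (fun r => (s r).coeff 0) (fun r => δ r)) :
    ∃ s, Sec1 𝒜 f s ∧ ∀ r, δ r = (s r).coeff 0 := sorry

/-- CM (120 lines). `D_m` = derivation of `Kc (Kl k N)` with `D_m u = 0`, `∂/∂λ_m` on the coefficients of
power series (Helper11/DP/E3.lean has it); `W_m = u⁻¹ D_m fK`, a section of `fK` with coefficients in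
power series, `≡ V_m` mod `u`. Choose `finrank HS f` of the `V_m` and coefficients with nonzero
minor (Helper49/NS/Minor.lean): the minor of the `W_m` is a power series with nonzero constant
term, so these `W_m` are independent over `Kc`, so they are a basis of `HS 𝒜 fK`. -/
theorem complete {N : ℕ} {f : R →ₐ[ℂ] k[X]} {V : Fin N → (R →ₗ[ℂ] k[X])}
    (hV : ∀ i, Sec 𝒜 f (V i)) (hsp : ∀ W, Sec 𝒜 f W → ∃ c : Fin N → k, W = ∑ i, c i • V i)
    {F : R →ₐ[ℂ] (PowerSeries (Kl k N))[X]} (hF : Def1 𝒜 f V F)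
    (fK : R →ₐ[ℂ] (Kc (Kl k N))[X])
    (hfK : ∀ r, fK r = (F r).map (algebraMap (PowerSeries (Kl k N)) (Kc (Kl k N))))
    (hfin : Module.Finite (Kc (Kl k N)) (HS 𝒜 fK))
    (hrr : Module.finrank (Kc (Kl k N)) (HS 𝒜 fK) ≤ Module.finrank k (HS 𝒜 f))
    (W : R →ₗ[ℂ] (Kc (Kl k N))[X]) (hW : Sec 𝒜 fK W) :
    ∃ D : Derivation ℂ (Kc (Kl k N)) (Kc (Kl k N)),
      D (algebraMap (PowerSeries (Kl k N)) (Kc (Kl k N)) PowerSeries.X) = 0 ∧
      ∀ r i, D ((fK r).coeff i) = (W r).coeff i := sorry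

/-- ID (60 lines). A shortest relation `∑ c i * z (r i) = 0` with one coefficient `1`; apply `D'`. -/
theorem lin_disj {K₀ K : Type} [Field K₀] [Algebra ℂ K₀] [Field K] [Algebra ℂ K] [Algebra K₀ K]
    [IsScalarTower ℂ K₀ K] (𝔴 : Set (Derivation ℂ K₀ K₀)) {z : R →ₐ[ℂ] K}
    (hz : Function.Injective z)
    (hext : ∀ D ∈ 𝔴, ∃ D' : Derivation ℂ K K,
      (∀ c : K₀, D' (algebraMap K₀ K c) = algebraMap K₀ K (D c)) ∧ ∀ r, D' (z r) = 0)
    (hconst : ∀ c : K₀, (∀ D ∈ 𝔴, D c = 0) → c ∈ Set.range (algebraMap ℂ K₀)) {m : ℕ}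
    {r : Fin m → R} (hr : LinearIndependent ℂ r) : LinearIndependent K₀ fun i => z (r i) := sorry

/-- IE (80 lines). `R ⊗ R → K`, `a ⊗ b ↦ x a * z b`, is injective, so `LC.Spec.exists_der` for the domain
`R ⊗ R` and the derivation `a ⊗ b ↦ x a * δ b` along it gives `D`. -/
theorem exists_der_pair [IsDomain R] {K : Type} [Field K] [Algebra ℂ K] {x z : R →ₐ[ℂ] K}
    (hdisj : ∀ (m : ℕ) (r : Fin m → R), LinearIndependent ℂ r → ∀ c : Fin m → R,
      ∑ i, x (c i) * z (r i) = 0 → ∀ i, c i = 0) {δ : R →ₗ[ℂ] K} (hδ : IsDer z δ) :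
    ∃ D : Derivation ℂ K K, (∀ r, D (x r) = 0) ∧ ∀ r, D (z r) = δ r := sorry

/-- HO (100 lines). Write `a / b = a' / b'` in lowest terms; `a' ∣ b' * euler a'`, so `euler a' = λ a'`,
degrees give `λ ∈ 𝒜 0 = ℂ`, so `a' ∈ 𝒜 d`; then `euler b' = d b'`, `b' ∈ 𝒜 d`; `d > 0` because
`𝒜 0 = ℂ`. -/
theorem homog [IsDomain R] [UniqueFactorizationMonoid R] (C : Core 𝒜 br) {a b : R} (hb : b ≠ 0)
    (hnc : ∀ c : ℂ, a ≠ c • b) (heu : b * euler 𝒜 a = a * euler 𝒜 b) :
    ∃ d, 0 < d ∧ ∃ a' ∈ 𝒜 d, ∃ b' ∈ 𝒜 d, b' ≠ 0 ∧ (∀ p, Prime p → p ∣ a' → ¬ p ∣ b') ∧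
      a * b' = b * a' := sorry

/-- CS (50 lines). The polynomial is translation invariant: apply `D` repeatedly to
`∑ p.coeff i * u ^ i = 0`, all derivatives of `p` vanish at `u`. -/
theorem trans_zero {K : Type} [Field K] [Algebra ℂ K] {D : Derivation ℂ K K} {p : K[X]}
    (hD : ∀ i, D (p.coeff i) = (i + 1) * p.coeff (i + 1)) {u : K} (hu : D u = 0)
    (h : p.eval u = 0) : p = 0 := sorry

/-- CD (150 lines). Let `t` be a common zero of `F a`, `F b` (a root of `F b`, or if `F b` is constant then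
infinity, that is `0` in the chart `G`; if `F b = 0` any point), `p₁` the point `F(t)`, `𝔮` its kernel:
height `≥ 2` (a height one prime is `(p)`), so `R / 𝔮` has transcendence degree `≤ 2 n - 2`
(compare Helper96/DT/BA, Helper17/CE/Fam.lean), the derivations `D ∘ p₁` form a space of dimension
`≤ 2 n - 2`, with the velocity `≤ 2 n - 1`; but `E0 p₁` has dimension `≥ 2 n` (Helper98/DP/A1). -/
theorem codim [IsDomain R] [UniqueFactorizationMonoid R] (C : Core 𝒜 br) {n : ℕ}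
    (hdim : ringKrullDim R = (2 * n : ℕ)) {F G : R →ₐ[ℂ] k[X]} (hF : IsCurve 𝒜 k 1 F)
    (hG : IsCurve 𝒜 k 1 G)
    (hrev : ∀ d, ∀ a ∈ 𝒜 d, ∀ i j, i + j = d → (F a).coeff i = (G a).coeff j)
    (hsF : ∀ t, Pool.Agent.Helper4.LE.SubAt F t) (hsG : ∀ t, Pool.Agent.Helper4.LE.SubAt G t)
    {d : ℕ} (hd : 0 < d) {a b : R} (ha : a ∈ 𝒜 d) (hb : b ∈ 𝒜 d) (hb0 : b ≠ 0)
    (hcop : ∀ p, Prime p → p ∣ a → ¬ p ∣ b) {c : k} (hc : F a = Polynomial.C c * F b) : False :=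
  sorry

end Pool.Agent.Helper58.OL.Spec
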